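import Pool.Agent.Results.MP_4b405e_nt.AlgebraicSets

/-!
Examples for the smooth arithmetic Kakeya problem.
-/

set_option autoImplicit false

namespace Pool.Agent.Zk72.KakEx

open Module Set
open scoped ContDiff

/-- the coordinates in `A` -/
noncomputable def pr {n : ℕ} (A : Finset (Fin n)) : EuclideanSpace ℝ (Fin n) →ₗ[ℝ] (A → ℝ) where
  toFun := fun x i => x i.1
  map_add' := fun _ _ => rfl
  map_smul' := fun _ _ => rfl

theorem mem_ker {n : ℕ} {A : Finset (Fin n)} {x : EuclideanSpace ℝ (Fin n)} :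
    x ∈ LinearMap.ker (pr A) ↔ ∀ i ∈ A, x i = 0 := by
  rw [LinearMap.mem_ker]
  constructor
  · intro h i hi
    exact congrFun h ⟨i, hi⟩
  · intro h
    funext i
    exact h i.1 i.2

theorem finrank_ker {n : ℕ} (A : Finset (Fin n)) :
    finrank ℝ (LinearMap.ker (pr A)) = n - A.card := by
  classical
  have hsurj : Function.Surjective (pr A) := by
    intro y
    refine ⟨WithLp.toLp 2 (fun i => if h : i ∈ A then y ⟨i, h⟩ else 0), ?_⟩
    funext i
    show (if h : i.1 ∈ A then y ⟨i.1, h⟩ else 0) = y i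
    rw [dif_pos i.2]
  have h1 := LinearMap.finrank_range_add_finrank_ker (pr A)
  rw [LinearMap.range_eq_top.2 hsurj, finrank_top, finrank_euclideanSpace_fin,
    Module.finrank_fintype_fun_eq_card, Fintype.card_coe] at h1
  omega

theorem kakeya_example (n : ℕ) (T : Finset ℝ) (t₀ : ℝ) (_ht : t₀ ∉ T) (d : ℝ → ℕ)
    (hd : ∀ t ∈ T, d t ≤ n) (hs : ∑ t ∈ T, (n - d t) ≤ n) :
    ∃ (V : ℝ → Submodule ℝ (EuclideanSpace ℝ (Fin n)))
      (Z : Submodule ℝ (EuclideanSpace ℝ (Fin n))),
      (∀ t ∈ T, finrank ℝ (V t) = d t) ∧ finrank ℝ Z = ∑ t ∈ T, (n - d t) ∧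
      ∀ r : EuclideanSpace ℝ (Fin n), ∃ a : EuclideanSpace ℝ (Fin n),
        a + t₀ • r ∈ Z ∧ ∀ t ∈ T, a + t • r ∈ V t := by
  classical
  have hsig : Fintype.card (Σ t : T, Fin (n - d t)) = ∑ t ∈ T, (n - d t) := by
    rw [Fintype.card_sigma]
    simp only [Fintype.card_fin]
    rw [Finset.sum_coe_sort T (fun t => n - d t)]
  have hcard : Fintype.card (Σ t : T, Fin (n - d t)) ≤ Fintype.card (Fin n) := by
    rw [hsig, Fintype.card_fin]
    exact hs
  obtain ⟨g⟩ := Function.Embedding.nonempty_of_card_le hcard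
  let lab : Fin n → Option ℝ := fun i => if hi : ∃ y, g y = i then some (hi.choose.1 : ℝ) else none
  have hlab : ∀ y, lab (g y) = some (y.1 : ℝ) := by
    intro y
    have h : ∃ y', g y' = g y := ⟨y, rfl⟩
    have h1 : lab (g y) = some (h.choose.1 : ℝ) := dif_pos h
    rw [h1, g.injective h.choose_spec]
  have hnone : ∀ i, lab i = none ↔ ¬ ∃ y, g y = i := by
    intro i
    by_cases h : ∃ y, g y = i
    · have h1 : lab i = some (h.choose.1 : ℝ) := dif_pos h
      simp [h1, h]
    · have h1 : lab i = none := dif_neg h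
      simp [h1, h]
  let S : ℝ → Finset (Fin n) := fun t => Finset.univ.filter (fun i => lab i = some t)
  let N : Finset (Fin n) := Finset.univ.filter (fun i => lab i = none)
  have hS : ∀ t ∈ T, (S t).card = n - d t := by
    intro t ht
    have h1 : S t = Finset.univ.map
        (⟨fun k : Fin (n - d t) => g ⟨⟨t, ht⟩, k⟩, fun k k' h => by
          have := g.injective h
          simpa using this⟩ : Fin (n - d t) ↪ Fin n) := by
      ext i
      simp only [S, Finset.mem_filter, Finset.mem_univ, true_and, Finset.mem_map]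
      constructor
      · intro h
        have h2 : ∃ y, g y = i := by
          by_contra hcon
          rw [(hnone i).2 hcon] at h
          exact absurd h (by simp)
        obtain ⟨⟨⟨t', ht'⟩, k⟩, rfl⟩ := h2
        rw [hlab] at h
        have h3 : t' = t := by simpa using h
        subst h3
        exact ⟨k, rfl⟩
      · rintro ⟨k, rfl⟩
        exact hlab ⟨⟨t, ht⟩, k⟩
    rw [h1, Finset.card_map, Finset.card_univ, Fintype.card_fin]
  have hN : N.card = n - ∑ t ∈ T, (n - d t) := by
    have h1 : N = (Finset.univ.map g)ᶜ := by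
      ext i
      simp only [N, Finset.mem_filter, Finset.mem_univ, true_and, Finset.mem_compl,
        Finset.mem_map, hnone]
    rw [h1, Finset.card_compl, Finset.card_map, Finset.card_univ, Fintype.card_fin, hsig]
  refine ⟨fun t => LinearMap.ker (pr (S t)), LinearMap.ker (pr N), fun t ht => ?_, ?_,
    fun r => ?_⟩
  · rw [finrank_ker, hS t ht]
    have := hd t ht
    omega
  · rw [finrank_ker, hN]
    omega
  · refine ⟨WithLp.toLp 2 (fun i => -((lab i).getD t₀ * r i)), ?_, fun t ht => ?_⟩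
    · rw [mem_ker]
      intro i hi
      have h1 : lab i = none := (Finset.mem_filter.1 hi).2
      show -((lab i).getD t₀ * r i) + t₀ * r i = 0
      rw [h1]
      show -(t₀ * r i) + t₀ * r i = 0
      ring
    · show WithLp.toLp 2 (fun i => -((lab i).getD t₀ * r i)) + t • r ∈ LinearMap.ker (pr (S t))
      rw [mem_ker]
      intro i hi
      have h1 : lab i = some t := (Finset.mem_filter.1 hi).2
      show -((lab i).getD t₀ * r i) + t * r i = 0
      rw [h1]
      show -(t * r i) + t * r i = 0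
      ring

open Pool.Agent.TH539.AlgProg in
/-- The smooth example. -/
theorem smooth_example (n k : ℕ) (hk : 1 ≤ k) :
    ∃ f : Fin k → EuclideanSpace ℝ (Fin n) → EuclideanSpace ℝ (Fin n),
      (∀ j, ContDiff ℝ ∞ (f j)) ∧ Bornology.IsBounded (⋃ j, range (f j)) ∧
      (∀ r : EuclideanSpace ℝ (Fin n), (∀ i, r i ∈ Icc (0 : ℝ) 1) →
        ∃ a : EuclideanSpace ℝ (Fin n), ∀ j : ℕ, j < k → a + (j : ℝ) • r ∈ ⋃ j, range (f j)) ∧
      Pool.Agent.Results.MP_4b405e_nt.AlgebraicSets.upperMinkowski (⋃ j, range (f j)) ≤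
        (((n - n / k : ℕ) : ℝ) : EReal) := by
  classical
  set T : Finset ℝ := (Finset.range k).map ⟨fun j : ℕ => (j : ℝ), Nat.cast_injective⟩ with hT
  have hsum : ∑ t ∈ T, (n - (n - n / k)) ≤ n := by
    rw [Finset.sum_const, hT, Finset.card_map, Finset.card_range, smul_eq_mul]
    have h1 : n - (n - n / k) = n / k := by
      have := Nat.div_le_self n k
      exact Nat.sub_sub_self this
    rw [h1]
    exact Nat.mul_div_le n k
  obtain ⟨τ, hτ1, hτ⟩ := exists_tau (n := n) T (fun _ => n - n / k) hsum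
  choose! S hS1 hS2 using hτ
  have hmemT : ∀ j < k, (j : ℝ) ∈ T := fun j hj => Finset.mem_map.2 ⟨j, Finset.mem_range.2 hj, rfl⟩
  have hcard : ∀ j < k, n - (S (j : ℝ)).card = n - n / k := by
    intro j hj
    rw [hS1 _ (hmemT j hj)]
    have := Nat.div_le_self n k
    rw [Nat.sub_sub_self this]
  let f : Fin k → EuclideanSpace ℝ (Fin n) → EuclideanSpace ℝ (Fin n) := fun j y =>
    WithLp.toLp 2 (fun i => if i ∈ S (j : ℝ) then 0 else (k : ℝ) * Real.sin (y i))
  have hk0 : (0 : ℝ) < k := by exact_mod_cast hk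
  have hrange : (⋃ j, range (f j)) = Ex k (fun j => S (j : ℝ)) := by
    ext x
    rw [mem_iUnion]
    constructor
    · rintro ⟨j, y, rfl⟩
      refine ⟨j, j.2, fun i hi => ?_, fun i => ?_⟩
      · show (if i ∈ S (j : ℝ) then 0 else (k : ℝ) * Real.sin (y i)) = 0
        rw [if_pos hi]
      · show |if i ∈ S (j : ℝ) then 0 else (k : ℝ) * Real.sin (y i)| ≤ k
        split_ifs
        · rw [abs_zero]; exact hk0.le
        · rw [abs_mul, abs_of_pos hk0]
          exact mul_le_of_le_one_right hk0.le (Real.abs_sin_le_one _)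
    · rintro ⟨j, hj, h1, h2⟩
      refine ⟨⟨j, hj⟩, WithLp.toLp 2 (fun i => Real.arcsin (x i / k)), ?_⟩
      ext i
      show (if i ∈ S (j : ℝ) then 0 else (k : ℝ) * Real.sin (Real.arcsin (x i / k))) = x i
      split_ifs with hi
      · exact (h1 i hi).symm
      · have h3 := abs_le.1 (h2 i)
        rw [Real.sin_arcsin, mul_div_cancel₀ _ hk0.ne']
        · rw [le_div_iff₀ hk0]; linarith
        · rw [div_le_one hk0]; linarith
  refine ⟨f, fun j => ?_, ?_, fun r hr => ?_, ?_⟩
  · rw [contDiff_euclidean]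
    intro i
    by_cases hi : i ∈ S (j : ℝ)
    · have h1 : (fun y : EuclideanSpace ℝ (Fin n) => f j y i) = fun _ => 0 := by
        funext y
        show (if i ∈ S (j : ℝ) then 0 else (k : ℝ) * Real.sin (y i)) = 0
        rw [if_pos hi]
      rw [h1]
      exact contDiff_const
    · have h1 : (fun y : EuclideanSpace ℝ (Fin n) => f j y i) =
          fun y => (k : ℝ) * Real.sin (y i) := by
        funext y
        show (if i ∈ S (j : ℝ) then 0 else (k : ℝ) * Real.sin (y i)) = _
        rw [if_neg hi]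
      rw [h1]
      exact contDiff_const.mul (Real.contDiff_sin.comp
        ((EuclideanSpace.proj i : EuclideanSpace ℝ (Fin n) →L[ℝ] ℝ).contDiff))
  · rw [hrange]
    exact Ex.bounded _
  · rw [hrange]
    refine ⟨WithLp.toLp 2 (fun i => - (τ i * r i)), fun j hj => ⟨j, hj, ?_, ?_⟩⟩
    · intro i hi
      change - (τ i * r i) + (j : ℝ) * r i = 0
      rw [hS2 _ (hmemT j hj) i hi]
      ring
    · intro i
      change |- (τ i * r i) + (j : ℝ) * r i| ≤ k
      obtain ⟨l, hl, hτl⟩ : ∃ l : ℕ, l ≤ k ∧ τ i = l := by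
        rcases hτ1 i with h | h
        · obtain ⟨l, hl, hl'⟩ := Finset.mem_map.1 h
          exact ⟨l, (Finset.mem_range.1 hl).le, hl'.symm⟩
        · exact ⟨0, Nat.zero_le _, by rw [h, Nat.cast_zero]⟩
      rw [hτl]
      have h0 := (hr i).1
      have h1 := (hr i).2
      have h2 : (l : ℝ) ≤ k := by exact_mod_cast hl
      have h3 : (j : ℝ) ≤ k := by exact_mod_cast hj.le
      have h4 : (0 : ℝ) ≤ l := Nat.cast_nonneg _
      have h5 : (0 : ℝ) ≤ j := Nat.cast_nonneg _
      rw [abs_le]
      constructor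
      · nlinarith
      · nlinarith
  · rw [hrange]
    refine dim_le (C := k * (2 * k * (n + 1) + 3) ^ (n - n / k)) ?_ (Nat.cast_nonneg _) ?_
    · have h1 : (1 : ℝ) ≤ k := by exact_mod_cast hk
      have h2 : (1 : ℝ) ≤ (2 * k * (n + 1) + 3) ^ (n - n / k) := by
        apply one_le_pow₀
        have : (0 : ℝ) ≤ 2 * k * (n + 1) := by positivity
        linarith
      nlinarith
    · intro δ hδ hδ1
      exact Ex.count hk _ hcard hδ hδ1

end Pool.Agent.Zk72.KakEx
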