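import Mathlib

open Set
open scoped ContDiff

namespace Pool.Agent.Zk72.KakCov1

theorem cube_compact (d : ℕ) :
    IsCompact {x : EuclideanSpace ℝ (Fin d) | ∀ i, x i ∈ Icc (0 : ℝ) 1} := by
  have h : {x : EuclideanSpace ℝ (Fin d) | ∀ i, x i ∈ Icc (0 : ℝ) 1}
      = (EuclideanSpace.equiv (Fin d) ℝ).symm '' (Set.pi Set.univ (fun _ => Icc (0 : ℝ) 1)) := by
    ext x
    constructor
    · intro hx
      refine ⟨EuclideanSpace.equiv (Fin d) ℝ x, ?_, ?_⟩
      · intro i _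
        exact hx i
      · simp
    · rintro ⟨y, hy, rfl⟩ i
      exact hy i (Set.mem_univ _)
  rw [h]
  exact (isCompact_univ_pi (fun _ => isCompact_Icc)).image
    (EuclideanSpace.equiv (Fin d) ℝ).symm.continuous

theorem cube_convex (d : ℕ) :
    Convex ℝ {x : EuclideanSpace ℝ (Fin d) | ∀ i, x i ∈ Icc (0 : ℝ) 1} := by
  intro x hx y hy a b ha hb hab i
  have := (convex_Icc (0 : ℝ) 1) (hx i) (hy i) ha hb hab
  simpa using this

/-- a point of the unit interval is within `1/m` of a multiple `w/m`, `w < m` -/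
theorem exists_grid (m : ℕ) (hm : 1 ≤ m) (t : ℝ) (ht : t ∈ Icc (0 : ℝ) 1) :
    ∃ w : Fin m, |t - (w : ℕ) / (m : ℝ)| ≤ 1 / (m : ℝ) := by
  have hm0 : (0 : ℝ) < m := by exact_mod_cast hm
  by_cases h1 : t = 1
  · refine ⟨⟨m - 1, by omega⟩, ?_⟩
    subst h1
    have : (((m - 1 : ℕ) : ℝ)) = (m : ℝ) - 1 := by
      rw [Nat.cast_sub hm]
      simp
    simp only [this]
    have h2 : (1 : ℝ) - ((m : ℝ) - 1) / m = 1 / m := by
      field_simp
      ring
    rw [h2, abs_of_pos (by positivity)]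
  · have ht1 : t < 1 := lt_of_le_of_ne ht.2 h1
    have hmt : 0 ≤ (m : ℝ) * t := mul_nonneg hm0.le ht.1
    have hlt : ⌊(m : ℝ) * t⌋₊ < m := by
      rw [Nat.floor_lt hmt]
      nlinarith
    refine ⟨⟨⌊(m : ℝ) * t⌋₊, hlt⟩, ?_⟩
    have h3 := Nat.floor_le hmt
    have h4 := Nat.lt_floor_add_one ((m : ℝ) * t)
    have h5 : t - (⌊(m : ℝ) * t⌋₊ : ℝ) / (m : ℝ) = ((m : ℝ) * t - (⌊(m : ℝ) * t⌋₊ : ℝ)) / m := by
      field_simp
    show |t - (⌊(m : ℝ) * t⌋₊ : ℝ) / (m : ℝ)| ≤ 1 / (m : ℝ)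
    rw [h5, abs_div, abs_of_pos hm0]
    gcongr
    rw [abs_le]
    constructor <;> linarith

theorem c1_cover (d n : ℕ) (g : EuclideanSpace ℝ (Fin d) → EuclideanSpace ℝ (Fin n))
    (hg : ContDiff ℝ 1 g) :
    ∃ C : ℝ, 0 < C ∧ ∀ δ : ℝ, 0 < δ → δ < 1 → ∃ S : Finset (EuclideanSpace ℝ (Fin n)),
      (g '' {x | ∀ i, x i ∈ Icc (0 : ℝ) 1}) ⊆ (⋃ x ∈ S, Metric.ball x δ) ∧
        (S.card : ℝ) ≤ C * δ ^ (-(d : ℝ)) := by
  classical
  obtain ⟨K, hK⟩ := (hg.contDiffOn (s := {x : EuclideanSpace ℝ (Fin d) | ∀ i, x i ∈ Icc (0 : ℝ) 1})).exists_lipschitzOnWith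
    (by simp) (cube_convex d) (cube_compact d)
  set L : ℝ := ((K : ℝ) + 1) * (Real.sqrt d + 1) with hL
  have hLpos : 0 < L := by positivity
  refine ⟨(L + 1) ^ d, by positivity, ?_⟩
  intro δ hδ hδ1
  set m : ℕ := ⌈L / δ⌉₊ with hm
  have hm1 : 1 ≤ m := by
    rw [hm, Nat.one_le_ceil_iff]
    positivity
  have hm0 : (0 : ℝ) < m := by exact_mod_cast hm1
  have hmL : L / δ ≤ m := Nat.le_ceil _
  have hmU : (m : ℝ) < L / δ + 1 := Nat.ceil_lt_add_one (by positivity)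
  set cor : (Fin d → Fin m) → EuclideanSpace ℝ (Fin d) :=
    fun w => WithLp.toLp 2 (fun i => ((w i : ℕ) : ℝ) / (m : ℝ)) with hcor
  refine ⟨Finset.univ.image (fun w => g (cor w)), ?_, ?_⟩
  · rintro _ ⟨x, hx, rfl⟩
    choose w hw using fun i => exists_grid m hm1 (x i) (hx i)
    rw [Set.mem_iUnion₂]
    refine ⟨g (cor w), by simp, ?_⟩
    rw [Metric.mem_ball]
    have hcQ : cor w ∈ {x : EuclideanSpace ℝ (Fin d) | ∀ i, x i ∈ Icc (0 : ℝ) 1} := by
      intro i
      constructor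
      · show (0 : ℝ) ≤ ((w i : ℕ) : ℝ) / (m : ℝ)
        positivity
      · show ((w i : ℕ) : ℝ) / (m : ℝ) ≤ 1
        rw [div_le_one hm0]
        exact_mod_cast (w i).2.le
    have h1 := hK.dist_le_mul x hx (cor w) hcQ
    have h2 : dist x (cor w) ≤ Real.sqrt d / m := by
      rw [EuclideanSpace.dist_eq]
      have h3 : ∑ i, dist (x i) (cor w i) ^ 2 ≤ (d : ℝ) * (1 / (m : ℝ)) ^ 2 := by
        calc ∑ i, dist (x i) (cor w i) ^ 2 ≤ ∑ _i : Fin d, (1 / (m : ℝ)) ^ 2 := by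
              apply Finset.sum_le_sum
              intro i _
              have := hw i
              rw [Real.dist_eq]
              exact pow_le_pow_left₀ (abs_nonneg _) this 2
          _ = (d : ℝ) * (1 / (m : ℝ)) ^ 2 := by simp
      calc Real.sqrt (∑ i, dist (x i) (cor w i) ^ 2) ≤ Real.sqrt ((d : ℝ) * (1 / (m : ℝ)) ^ 2) :=
            Real.sqrt_le_sqrt h3
        _ = Real.sqrt d / m := by
            rw [Real.sqrt_mul (by positivity), Real.sqrt_sq (by positivity)]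
            ring
    calc dist (g x) (g (cor w)) ≤ (K : ℝ) * dist x (cor w) := h1
      _ ≤ (K : ℝ) * (Real.sqrt d / m) := by gcongr
      _ = ((K : ℝ) * Real.sqrt d) / m := by ring
      _ < L / m := by
          apply div_lt_div_of_pos_right _ hm0
          rw [hL]
          have hs : 0 ≤ Real.sqrt d := Real.sqrt_nonneg _
          have hk : (0 : ℝ) ≤ K := K.2
          nlinarith [mul_nonneg hk hs]
      _ ≤ δ := by
          rw [div_le_iff₀ hm0]
          rw [div_le_iff₀ hδ] at hmL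
          linarith
  · have h1 : ((Finset.univ.image (fun w => g (cor w))).card : ℝ) ≤ (m : ℝ) ^ d := by
      have h2 : (Finset.univ.image (fun w => g (cor w))).card ≤ m ^ d := by
        refine Finset.card_image_le.trans ?_
        simp
      exact_mod_cast h2
    refine h1.trans ?_
    rw [Real.rpow_neg hδ.le, Real.rpow_natCast, ← div_eq_mul_inv, ← div_pow]
    apply pow_le_pow_left₀ hm0.le
    refine hmU.le.trans ?_
    rw [add_div]
    have : 1 ≤ 1 / δ := by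
      rw [le_div_iff₀ hδ]
      linarith
    linarith

end Pool.Agent.Zk72.KakCov1
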