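import Pool.Agent.Zk72.KakCov1

set_option autoImplicit false

open Set
open scoped ContDiff

namespace Pool.Agent.Zk72.KakCode

/-! ### expansions -/

noncomputable def X (b : ℕ) (e : ℕ → ℕ) : ℝ := ∑' J : ℕ, (2 * (e J : ℝ)) / (b : ℝ) ^ (J + 1)

theorem term_le (b : ℕ) (hb : 2 ≤ b) (e : ℕ → ℕ) (he : ∀ J, 2 * e J + 2 ≤ b) (J : ℕ) :
    (2 * (e J : ℝ)) / (b : ℝ) ^ (J + 1) ≤ ((b : ℝ) - 1) / b * (1 / (b : ℝ)) ^ J := by
  have hb0 : (0 : ℝ) < b := by
    have : 0 < b := by omega
    exact_mod_cast this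
  have h1 : 2 * (e J : ℝ) ≤ (b : ℝ) - 1 := by
    have := he J
    have h2 : 2 * (e J : ℝ) + 2 ≤ (b : ℝ) := by exact_mod_cast this
    linarith
  have h3 : ((b : ℝ) - 1) / b * (1 / (b : ℝ)) ^ J = ((b : ℝ) - 1) / (b : ℝ) ^ (J + 1) := by
    rw [one_div, inv_pow, pow_succ]
    field_simp
  rw [h3]
  gcongr

theorem geo_summ (b : ℕ) (hb : 2 ≤ b) :
    Summable (fun J : ℕ => ((b : ℝ) - 1) / b * (1 / (b : ℝ)) ^ J) := by
  have hb0 : (1 : ℝ) < b := by
    have : 1 < b := by omega
    exact_mod_cast this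
  refine (summable_geometric_of_lt_one (by positivity) ?_).mul_left _
  rw [div_lt_one (by linarith)]
  exact hb0

theorem geo_tsum (b : ℕ) (hb : 2 ≤ b) :
    ∑' J : ℕ, ((b : ℝ) - 1) / b * (1 / (b : ℝ)) ^ J = 1 := by
  have hb0 : (1 : ℝ) < b := by
    have : 1 < b := by omega
    exact_mod_cast this
  rw [tsum_mul_left, tsum_geometric_of_lt_one (by positivity)
    (by rw [div_lt_one (by linarith)]; exact hb0)]
  have h1 : (b : ℝ) - 1 ≠ 0 := by
    intro h
    linarith
  have h2 : (b : ℝ) ≠ 0 := by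
    intro h
    linarith
  field_simp

theorem summ (b : ℕ) (hb : 2 ≤ b) (e : ℕ → ℕ) (he : ∀ J, 2 * e J + 2 ≤ b) :
    Summable (fun J : ℕ => (2 * (e J : ℝ)) / (b : ℝ) ^ (J + 1)) :=
  Summable.of_nonneg_of_le (fun J => by positivity) (term_le b hb e he) (geo_summ b hb)

theorem X_nonneg (b : ℕ) (e : ℕ → ℕ) : 0 ≤ X b e := tsum_nonneg fun J => by positivity

theorem X_le_one (b : ℕ) (hb : 2 ≤ b) (e : ℕ → ℕ) (he : ∀ J, 2 * e J + 2 ≤ b) : X b e ≤ 1 := by
  rw [← geo_tsum b hb]
  exact (summ b hb e he).tsum_le_tsum (term_le b hb e he) (geo_summ b hb)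

theorem X_step (b : ℕ) (hb : 2 ≤ b) (e : ℕ → ℕ) (he : ∀ J, 2 * e J + 2 ≤ b) :
    (b : ℝ) * X b e = 2 * (e 0 : ℝ) + X b (fun J => e (J + 1)) := by
  have hb0 : (0 : ℝ) < b := by
    have : 0 < b := by omega
    exact_mod_cast this
  unfold X
  rw [(summ b hb e he).tsum_eq_zero_add, mul_add, ← tsum_mul_left]
  congr 1
  · rw [zero_add, pow_one]
    field_simp
  · apply tsum_congr
    intro J
    rw [pow_succ (b : ℝ) (J + 1)]
    field_simp

theorem X_shift (b : ℕ) (hb : 2 ≤ b) (e : ℕ → ℕ) (he : ∀ J, 2 * e J + 2 ≤ b) (J : ℕ) :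
    ∃ m : ℤ, (b : ℝ) ^ J * X b e = m + X b (fun K => e (J + K)) := by
  induction J with
  | zero => exact ⟨0, by simp⟩
  | succ J ih =>
      obtain ⟨m, hm⟩ := ih
      refine ⟨b * m + 2 * e J, ?_⟩
      rw [pow_succ', mul_assoc, hm, mul_add, X_step b hb (fun K => e (J + K)) (fun K => he _)]
      push_cast
      have : (fun K => e (J + 1 + K)) = fun K => e (J + (K + 1)) := by
        funext K
        congr 1
        ring
      rw [this, add_zero]
      ring

theorem X_cell (b : ℕ) (hb : 2 ≤ b) (e : ℕ → ℕ) (he : ∀ J, 2 * e J + 2 ≤ b) (J : ℕ) :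
    ∃ m : ℤ, (b : ℝ) ^ J * X b e - m ∈ Icc ((2 * (e J : ℝ)) / b) ((2 * (e J : ℝ) + 1) / b) := by
  have hb0 : (0 : ℝ) < b := by
    have : 0 < b := by omega
    exact_mod_cast this
  obtain ⟨m, hm⟩ := X_shift b hb e he J
  refine ⟨m, ?_⟩
  rw [hm, add_sub_cancel_left]
  have h1 := X_step b hb (fun K => e (J + K)) (fun K => he _)
  have h2 := X_nonneg b (fun K => e (J + (K + 1)))
  have h3 := X_le_one b hb (fun K => e (J + (K + 1))) (fun K => he _)
  simp only [add_zero] at h1
  constructor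
  · rw [div_le_iff₀ hb0]
    linarith
  · rw [le_div_iff₀ hb0]
    linarith

/-! ### the bump functions -/

noncomputable def psi (c e : ℕ) (t : ℝ) : ℝ :=
  if c = 1 then 1 else Real.smoothTransition
    ((Real.cos (2 * Real.pi * (t - (2 * (e : ℝ) + 1 / 2) / (2 * c))) -
      Real.cos (3 * Real.pi / (2 * c))) /
      (Real.cos (Real.pi / (2 * c)) - Real.cos (3 * Real.pi / (2 * c))))

theorem psi_smooth (c e : ℕ) : ContDiff ℝ ∞ (psi c e) := by
  unfold psi
  by_cases hc : c = 1
  · simp only [hc, if_true]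
    exact contDiff_const
  · simp only [hc, if_false]
    refine Real.smoothTransition.contDiff.comp ?_
    refine ContDiff.div_const (ContDiff.sub (Real.contDiff_cos.comp ?_) contDiff_const) _
    exact contDiff_const.mul (contDiff_id.sub contDiff_const)

theorem psi_per (c e : ℕ) (t : ℝ) (m : ℤ) : psi c e (t + m) = psi c e t := by
  unfold psi
  by_cases hc : c = 1
  · simp only [hc, if_true]
  · simp only [hc, if_false]
    have : 2 * Real.pi * (t + m - (2 * (e : ℝ) + 1 / 2) / (2 * c)) =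
        2 * Real.pi * (t - (2 * (e : ℝ) + 1 / 2) / (2 * c)) + m * (2 * Real.pi) := by ring
    rw [this, Real.cos_add_int_mul_two_pi]

theorem psi_cell (c e e' : ℕ) (he : e < c) (he' : e' < c) (t : ℝ) (m : ℤ)
    (ht : t - m ∈ Icc ((2 * (e' : ℝ)) / (2 * c)) ((2 * (e' : ℝ) + 1) / (2 * c))) :
    psi c e t = if e = e' then 1 else 0 := by
  have hper : psi c e t = psi c e (t - m) := by
    have := psi_per c e (t - m) m
    rw [← this]
    congr 1
    ring
  rw [hper]
  set u := t - m with hu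
  clear_value u
  unfold psi
  by_cases hc : c = 1
  · have : e = e' := by omega
    simp [hc, this]
  · have hc2 : 2 ≤ c := by omega
    have hcR : (2 : ℝ) ≤ c := by exact_mod_cast hc2
    simp only [hc, if_false]
    have hpi := Real.pi_pos
    have h3pi : 3 * Real.pi / (2 * c) ≤ Real.pi := by
      rw [div_le_iff₀ (by linarith)]
      nlinarith
    have hlt : Real.cos (3 * Real.pi / (2 * c)) < Real.cos (Real.pi / (2 * c)) := by
      apply Real.cos_lt_cos_of_nonneg_of_le_pi (by positivity) h3pi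
      apply div_lt_div_of_pos_right _ (by linarith)
      linarith
    have hden : 0 < Real.cos (Real.pi / (2 * c)) - Real.cos (3 * Real.pi / (2 * c)) := by linarith
    obtain ⟨h1, h2⟩ := ht
    by_cases hee : e = e'
    · subst hee
      rw [if_pos rfl]
      apply Real.smoothTransition.one_of_one_le
      rw [one_le_div hden]
      have h4 : Real.cos (Real.pi / (2 * c)) ≤
          Real.cos (2 * Real.pi * (u - (2 * (e : ℝ) + 1 / 2) / (2 * c))) := by
        rw [← Real.cos_abs (2 * Real.pi * (u - (2 * (e : ℝ) + 1 / 2) / (2 * c)))]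
        apply Real.cos_le_cos_of_nonneg_of_le_pi (abs_nonneg _)
        · rw [div_le_iff₀ (by linarith)]
          nlinarith
        · rw [abs_mul, abs_of_pos (by positivity : (0 : ℝ) < 2 * Real.pi)]
          have h5 : |u - (2 * (e : ℝ) + 1 / 2) / (2 * c)| ≤ (1 / 2) / (2 * c) := by
            rw [abs_le]
            constructor
            · have : (2 * (e : ℝ)) / (2 * c) = (2 * (e : ℝ) + 1 / 2) / (2 * c) - (1 / 2) / (2 * c) := by
                ring
              linarith
            · have : (2 * (e : ℝ) + 1) / (2 * c) = (2 * (e : ℝ) + 1 / 2) / (2 * c) + (1 / 2) / (2 * c) := by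
                ring
              linarith
          calc 2 * Real.pi * |u - (2 * (e : ℝ) + 1 / 2) / (2 * c)|
              ≤ 2 * Real.pi * ((1 / 2) / (2 * c)) := by gcongr
            _ = Real.pi / (2 * c) := by ring
      linarith
    · rw [if_neg hee]
      apply Real.smoothTransition.zero_of_nonpos
      apply div_nonpos_of_nonpos_of_nonneg _ hden.le
      have h4 : Real.cos (2 * Real.pi * (u - (2 * (e : ℝ) + 1 / 2) / (2 * c))) ≤
          Real.cos (3 * Real.pi / (2 * c)) := by
        rw [← Real.cos_abs (2 * Real.pi * (u - (2 * (e : ℝ) + 1 / 2) / (2 * c)))]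
        rw [abs_mul, abs_of_pos (by positivity : (0 : ℝ) < 2 * Real.pi)]
        set w := |u - (2 * (e : ℝ) + 1 / 2) / (2 * c)| with hw
        have hw1 : (3 / 2) / (2 * c) ≤ w ∧ w ≤ 1 - (3 / 2) / (2 * c) := by
          have hc0 : (0 : ℝ) < 2 * c := by linarith
          rw [div_le_iff₀ hc0] at h1
          rw [le_div_iff₀ hc0] at h2
          have heq : u - (2 * (e : ℝ) + 1 / 2) / (2 * c) =
              (u * (2 * c) - (2 * (e : ℝ) + 1 / 2)) / (2 * c) := by
            field_simp
          have h1c : (1 : ℝ) - (3 / 2) / (2 * c) = (2 * c - 3 / 2) / (2 * c) := by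
            field_simp
          rw [hw, heq, abs_div, abs_of_pos hc0, h1c]
          have heR : (e : ℝ) + 1 ≤ c := by exact_mod_cast he
          have heR' : (e' : ℝ) + 1 ≤ c := by exact_mod_cast he'
          have he0 : (0 : ℝ) ≤ e := by positivity
          have he0' : (0 : ℝ) ≤ e' := by positivity
          rcases Nat.lt_or_gt_of_ne hee with hlt' | hgt'
          · have h7 : (e : ℝ) + 1 ≤ e' := by exact_mod_cast hlt'
            have hpos : 0 ≤ u * (2 * c) - (2 * (e : ℝ) + 1 / 2) := by linarith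
            rw [abs_of_nonneg hpos]
            constructor
            · apply div_le_div_of_nonneg_right _ hc0.le
              linarith
            · apply div_le_div_of_nonneg_right _ hc0.le
              linarith
          · have h7 : (e' : ℝ) + 1 ≤ e := by exact_mod_cast hgt'
            have hneg : u * (2 * c) - (2 * (e : ℝ) + 1 / 2) ≤ 0 := by linarith
            rw [abs_of_nonpos hneg]
            constructor
            · apply div_le_div_of_nonneg_right _ hc0.le
              linarith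
            · apply div_le_div_of_nonneg_right _ hc0.le
              linarith
        have h8 : 3 * Real.pi / (2 * c) = 2 * Real.pi * ((3 / 2) / (2 * c)) := by ring
        by_cases hhalf : 2 * Real.pi * w ≤ Real.pi
        · apply Real.cos_le_cos_of_nonneg_of_le_pi (by positivity) hhalf
          rw [h8]
          exact mul_le_mul_of_nonneg_left hw1.1 (by positivity)
        · push Not at hhalf
          have h9 : Real.cos (2 * Real.pi * w) = Real.cos (2 * Real.pi - 2 * Real.pi * w) := by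
            rw [Real.cos_two_pi_sub]
          rw [h9]
          apply Real.cos_le_cos_of_nonneg_of_le_pi (by positivity)
          · linarith
          · rw [h8]
            have := mul_le_mul_of_nonneg_left hw1.2 (by positivity : (0 : ℝ) ≤ 2 * Real.pi)
            linarith
      linarith

/-! ### periodic functions -/

theorem bdd_of_per {F : Type} [NormedAddCommGroup F] {d : ℕ} (f : EuclideanSpace ℝ (Fin d) → F)
    (hf : Continuous f)
    (hper : ∀ (x : EuclideanSpace ℝ (Fin d)) (z : Fin d → ℤ),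
      f (x + WithLp.toLp 2 (fun i => (z i : ℝ))) = f x) :
    ∃ C : ℝ, 0 ≤ C ∧ ∀ x, ‖f x‖ ≤ C := by
  obtain ⟨C, hC⟩ := (KakCov1.cube_compact d).exists_bound_of_continuousOn hf.continuousOn
  have h0 : (0 : EuclideanSpace ℝ (Fin d)) ∈
      {x : EuclideanSpace ℝ (Fin d) | ∀ i, x i ∈ Icc (0 : ℝ) 1} := by
    intro i
    simp
  refine ⟨C, (norm_nonneg _).trans (hC 0 h0), ?_⟩
  intro x
  rw [← hper x (fun i => -⌊x i⌋)]
  apply hC
  intro i
  have h1 : (x + WithLp.toLp 2 (fun i => ((-⌊x i⌋ : ℤ) : ℝ)) : EuclideanSpace ℝ (Fin d)) i =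
      Int.fract (x i) := by
    show x i + ((-⌊x i⌋ : ℤ) : ℝ) = Int.fract (x i)
    rw [← Int.self_sub_floor]
    push_cast
    ring
  rw [h1]
  exact ⟨Int.fract_nonneg _, (Int.fract_lt_one _).le⟩

/-- the lacunary series of a smooth periodic function is continuously differentiable -/
theorem series {d : ℕ} (P : EuclideanSpace ℝ (Fin d) → ℝ) (hP : ContDiff ℝ ∞ P)
    (hper : ∀ (x : EuclideanSpace ℝ (Fin d)) (z : Fin d → ℤ),
      P (x + WithLp.toLp 2 (fun i => (z i : ℝ))) = P x) (b N : ℕ) (hb : 1 ≤ b) (hbN : b < N) :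
    ContDiff ℝ 1 (fun x => ∑' J : ℕ, (1 / (N : ℝ) ^ (J + 1)) * P (((b : ℝ) ^ J) • x)) := by
  have hN0 : (0 : ℝ) < N := by
    have : 0 < N := by omega
    exact_mod_cast this
  obtain ⟨C0, hC0, hC0'⟩ := bdd_of_per P hP.continuous hper
  have hdP : ContDiff ℝ 1 P := hP.of_le (by exact_mod_cast le_top)
  obtain ⟨C1, hC1, hC1'⟩ := bdd_of_per (fderiv ℝ P) (hdP.continuous_fderiv (by simp)) (by
    intro x z
    have h1 : (fun y => P (y + WithLp.toLp 2 (fun i => (z i : ℝ)))) = P := by
      funext y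
      exact hper y z
    have h2 := fderiv_comp_add_right (𝕜 := ℝ) (f := P) (x := x)
      (WithLp.toLp 2 (fun i => (z i : ℝ)) : EuclideanSpace ℝ (Fin d))
    rw [h1] at h2
    exact h2.symm)
  have hsmooth : ∀ J : ℕ, ContDiff ℝ 1 (fun x : EuclideanSpace ℝ (Fin d) =>
      (1 / (N : ℝ) ^ (J + 1)) * P (((b : ℝ) ^ J) • x)) := by
    intro J
    exact contDiff_const.mul (hdP.comp (contDiff_const_smul _))
  refine contDiff_tsum (N := 1) (v := fun k J => if k = 0 then C0 / N * (1 / (N : ℝ)) ^ J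
    else C1 / N * ((b : ℝ) / N) ^ J) hsmooth ?_ ?_
  · intro k hk
    by_cases h0 : k = 0
    · simp only [h0, if_true]
      refine (summable_geometric_of_lt_one (by positivity) ?_).mul_left _
      rw [div_lt_one hN0]
      have h1 : 1 < N := by omega
      exact_mod_cast h1
    · simp only [h0, if_false]
      refine (summable_geometric_of_lt_one (by positivity) ?_).mul_left _
      rw [div_lt_one hN0]
      exact_mod_cast hbN
  · intro k J x hk
    by_cases h0 : k = 0
    · subst h0
      simp only [if_true]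
      rw [norm_iteratedFDeriv_zero, norm_mul, Real.norm_of_nonneg (by positivity)]
      calc 1 / (N : ℝ) ^ (J + 1) * ‖P (((b : ℝ) ^ J) • x)‖ ≤ 1 / (N : ℝ) ^ (J + 1) * C0 := by
            gcongr
            exact hC0' _
        _ = C0 / N * (1 / (N : ℝ)) ^ J := by
            rw [one_div, one_div, inv_pow, pow_succ]
            field_simp
    · have h1 : k = 1 := by
        have : k ≤ 1 := by exact_mod_cast hk
        omega
      subst h1
      simp only [one_ne_zero, if_false]
      rw [norm_iteratedFDeriv_one]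
      have hd : HasFDerivAt (fun x : EuclideanSpace ℝ (Fin d) =>
          (1 / (N : ℝ) ^ (J + 1)) * P (((b : ℝ) ^ J) • x))
          ((1 / (N : ℝ) ^ (J + 1)) • ((fderiv ℝ P (((b : ℝ) ^ J) • x)).comp
            (((b : ℝ) ^ J) • ContinuousLinearMap.id ℝ (EuclideanSpace ℝ (Fin d))))) x := by
        have h1 : HasFDerivAt (fun x : EuclideanSpace ℝ (Fin d) => ((b : ℝ) ^ J) • x)
            (((b : ℝ) ^ J) • ContinuousLinearMap.id ℝ (EuclideanSpace ℝ (Fin d))) x :=
          (hasFDerivAt_id x).const_smul ((b : ℝ) ^ J)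
        have h2 : HasFDerivAt P (fderiv ℝ P (((b : ℝ) ^ J) • x)) (((b : ℝ) ^ J) • x) :=
          (hdP.differentiable (by simp) _).hasFDerivAt
        exact (h2.comp x h1).const_mul _
      rw [hd.fderiv, norm_smul, Real.norm_of_nonneg (by positivity)]
      have h3 : ‖(fderiv ℝ P (((b : ℝ) ^ J) • x)).comp
          (((b : ℝ) ^ J) • ContinuousLinearMap.id ℝ (EuclideanSpace ℝ (Fin d)))‖ ≤
          C1 * (b : ℝ) ^ J := by
        refine (ContinuousLinearMap.opNorm_comp_le _ _).trans ?_
        have h4 : ‖((b : ℝ) ^ J) • ContinuousLinearMap.id ℝ (EuclideanSpace ℝ (Fin d))‖ ≤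
            (b : ℝ) ^ J := by
          rw [norm_smul, Real.norm_of_nonneg (by positivity)]
          have hid : ‖ContinuousLinearMap.id ℝ (EuclideanSpace ℝ (Fin d))‖ ≤ 1 :=
            ContinuousLinearMap.norm_id_le
          calc (b : ℝ) ^ J * ‖ContinuousLinearMap.id ℝ (EuclideanSpace ℝ (Fin d))‖
              ≤ (b : ℝ) ^ J * 1 := by gcongr
            _ = (b : ℝ) ^ J := mul_one _
        exact mul_le_mul (hC1' _) h4 (norm_nonneg _) hC1
      refine (mul_le_mul_of_nonneg_left h3 (by positivity)).trans (le_of_eq ?_)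
      rw [div_pow, pow_succ]
      field_simp

theorem c1_code (d n c N : ℕ) (hc : 1 ≤ c) (hN : 2 * c < N) (A : Finset (Fin n → ℤ))
    (hA : A.card ≤ c ^ d) :
    ∃ g : EuclideanSpace ℝ (Fin d) → EuclideanSpace ℝ (Fin n), ContDiff ℝ 1 g ∧
      ∀ α : ℕ → Fin n → ℤ, (∀ J, α J ∈ A) →
        ∃ x : EuclideanSpace ℝ (Fin d), (∀ i, x i ∈ Icc (0 : ℝ) 1) ∧
        ∀ i, g x i = ∑' J : ℕ, (α J i : ℝ) / (N : ℝ) ^ (J + 1) := by
  classical
  have hcard : Fintype.card A ≤ Fintype.card (Fin d → Fin c) := by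
    rw [Fintype.card_coe]
    simpa using hA
  obtain ⟨φ⟩ := Function.Embedding.nonempty_of_card_le hcard
  let P : Fin n → EuclideanSpace ℝ (Fin d) → ℝ := fun i y =>
    ∑ a : A, (∏ k : Fin d, psi c (φ a k) (y k)) * (a.1 i : ℝ)
  have hPs : ∀ i, ContDiff ℝ ∞ (P i) := by
    intro i
    refine ContDiff.sum fun a _ => ContDiff.mul (contDiff_prod fun k _ => ?_) contDiff_const
    exact (psi_smooth c _).comp (contDiff_euclidean.mp contDiff_id k)
  have hPp : ∀ i (x : EuclideanSpace ℝ (Fin d)) (z : Fin d → ℤ),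
      P i (x + WithLp.toLp 2 (fun i => (z i : ℝ))) = P i x := by
    intro i x z
    simp only [P]
    refine Finset.sum_congr rfl fun a _ => ?_
    congr 1
    refine Finset.prod_congr rfl fun k _ => ?_
    exact psi_per c _ (x k) (z k)
  refine ⟨fun x => WithLp.toLp 2 (fun i => ∑' J : ℕ, (1 / (N : ℝ) ^ (J + 1)) *
    P i ((((2 * c : ℕ) : ℝ) ^ J) • x)), ?_, ?_⟩
  · rw [contDiff_euclidean]
    intro i
    exact series (P i) (hPs i) (hPp i) (2 * c) N (by omega) hN
  · intro α hα
    have hbc : ((2 * c : ℕ) : ℝ) = 2 * (c : ℝ) := by push_cast; ring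
    have he : ∀ (k : Fin d) (J : ℕ), 2 * ((φ ⟨α J, hα J⟩ k : Fin c) : ℕ) + 2 ≤ 2 * c := by
      intro k J
      have := (φ ⟨α J, hα J⟩ k).2
      omega
    refine ⟨WithLp.toLp 2 (fun k => X (2 * c) (fun J => ((φ ⟨α J, hα J⟩ k : Fin c) : ℕ))), ?_, ?_⟩
    · intro k
      exact ⟨X_nonneg _ _, X_le_one _ (by omega) _ (he k)⟩
    · intro i
      show (∑' J : ℕ, _) = _
      apply tsum_congr
      intro J
      have hP : P i ((((2 * c : ℕ) : ℝ) ^ J) • (WithLp.toLp 2 (fun k => X (2 * c)
          (fun J => ((φ ⟨α J, hα J⟩ k : Fin c) : ℕ))) : EuclideanSpace ℝ (Fin d))) = (α J i : ℝ) := by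
        simp only [P]
        rw [Finset.sum_eq_single (⟨α J, hα J⟩ : A)]
        · have : ∏ k : Fin d, psi c (φ ⟨α J, hα J⟩ k) (((((2 * c : ℕ) : ℝ) ^ J) •
              (WithLp.toLp 2 (fun k => X (2 * c)
              (fun J => ((φ ⟨α J, hα J⟩ k : Fin c) : ℕ))) : EuclideanSpace ℝ (Fin d))) k) = 1 := by
            apply Finset.prod_eq_one
            intro k _
            obtain ⟨m, hm⟩ := X_cell (2 * c) (by omega) _ (he k) J
            have h7 := psi_cell c (φ ⟨α J, hα J⟩ k) (φ ⟨α J, hα J⟩ k) (φ ⟨α J, hα J⟩ k).2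
              (φ ⟨α J, hα J⟩ k).2 _ m (by rw [← hbc]; exact hm)
            rw [if_pos rfl] at h7
            exact h7
          rw [this, one_mul]
        · intro a _ ha
          have hne : φ a ≠ φ ⟨α J, hα J⟩ := fun h => ha (φ.injective h)
          obtain ⟨k, hk⟩ := Function.ne_iff.mp hne
          have : ∏ k : Fin d, psi c (φ a k) (((((2 * c : ℕ) : ℝ) ^ J) •
              (WithLp.toLp 2 (fun k => X (2 * c)
              (fun J => ((φ ⟨α J, hα J⟩ k : Fin c) : ℕ))) : EuclideanSpace ℝ (Fin d))) k) = 0 := by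
            apply Finset.prod_eq_zero (Finset.mem_univ k)
            obtain ⟨m, hm⟩ := X_cell (2 * c) (by omega) _ (he k) J
            have h7 := psi_cell c (φ a k) (φ ⟨α J, hα J⟩ k) (φ a k).2
              (φ ⟨α J, hα J⟩ k).2 _ m (by rw [← hbc]; exact hm)
            rw [if_neg (fun h => hk (Fin.ext h))] at h7
            exact h7
          rw [this, zero_mul]
        · intro h
          exact absurd (Finset.mem_univ _) h
      rw [hP]
      ring

end Pool.Agent.Zk72.KakCode
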