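import Mathlib

open Set
open scoped ContDiff

namespace Pool.Agent.Zk72.KakDisc

/-- A point `y` at distance less than `1/N` of `x` has `⌊N y⌋` within one of `⌊N x⌋`. -/
theorem floor_near (N : ℕ) (hN : 1 ≤ N) (x y : ℝ) (h : |y - x| < 1 / (N : ℝ)) :
    ⌊(N : ℝ) * y⌋ ∈ Finset.Icc (⌊(N : ℝ) * x⌋ - 1) (⌊(N : ℝ) * x⌋ + 1) := by
  have hN0 : (0 : ℝ) < N := by exact_mod_cast hN
  have h1 : |(N : ℝ) * y - (N : ℝ) * x| < 1 := by
    rw [← mul_sub, abs_mul, abs_of_pos hN0]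
    calc (N : ℝ) * |y - x| < (N : ℝ) * (1 / (N : ℝ)) := mul_lt_mul_of_pos_left h hN0
      _ = 1 := by field_simp
  rw [abs_lt] at h1
  rw [Finset.mem_Icc]
  constructor
  · have h2 : ⌊(N : ℝ) * x⌋ - 1 ≤ ⌊(N : ℝ) * y⌋ := by
      rw [Int.le_floor]
      push_cast
      have := Int.floor_le ((N : ℝ) * x)
      linarith [h1.1]
    exact h2
  · have h3 : ⌊(N : ℝ) * y⌋ < ⌊(N : ℝ) * x⌋ + 2 := by
      rw [Int.floor_lt]
      push_cast
      have := Int.lt_floor_add_one ((N : ℝ) * x)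
      linarith [h1.2]
    omega

theorem discretise (n k N : ℕ) (hN : 1 ≤ N) (B : Set (EuclideanSpace ℝ (Fin n)))
    (hB : ∀ r : EuclideanSpace ℝ (Fin n), (∀ i, r i ∈ Icc (0 : ℝ) 1) →
      ∃ a : EuclideanSpace ℝ (Fin n), ∀ j : ℕ, j < k → a + (j : ℝ) • r ∈ B)
    (S : Finset (EuclideanSpace ℝ (Fin n))) (hS : B ⊆ ⋃ x ∈ S, Metric.ball x (1 / (N : ℝ))) :
    ∃ A : Finset (Fin n → ℤ), A.card ≤ 3 ^ n * S.card ∧
      ∀ v : Fin n → ℕ, (∀ i, v i < N) → ∃ α : Fin n → ℤ, ∀ j : ℕ, j < k →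
        (fun i => α i + (j : ℤ) * (v i : ℤ)) ∈ A := by
  classical
  have hN0 : (0 : ℝ) < N := by exact_mod_cast hN
  refine ⟨S.biUnion (fun x => Fintype.piFinset
    (fun i => Finset.Icc (⌊(N : ℝ) * x i⌋ - 1) (⌊(N : ℝ) * x i⌋ + 1))), ?_, ?_⟩
  · refine Finset.card_biUnion_le.trans ?_
    rw [mul_comm, ← smul_eq_mul]
    refine Finset.sum_le_card_nsmul _ _ _ ?_
    intro x _
    rw [Fintype.card_piFinset]
    have h3 : ∀ i : Fin n, (Finset.Icc (⌊(N : ℝ) * x i⌋ - 1) (⌊(N : ℝ) * x i⌋ + 1)).card = 3 := by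
      intro i
      rw [Int.card_Icc]
      have : ⌊(N : ℝ) * x i⌋ + 1 + 1 - (⌊(N : ℝ) * x i⌋ - 1) = 3 := by ring
      rw [this]
      rfl
    simp [h3]
  · intro v hv
    obtain ⟨a, ha⟩ := hB (WithLp.toLp 2 (fun i => (v i : ℝ) / (N : ℝ))) (by
      intro i
      constructor
      · positivity
      · show (v i : ℝ) / (N : ℝ) ≤ 1
        rw [div_le_one hN0]
        exact_mod_cast (hv i).le)
    refine ⟨fun i => ⌊(N : ℝ) * a i⌋, ?_⟩
    intro j hj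
    have hy := hS (ha j hj)
    simp only [Set.mem_iUnion] at hy
    obtain ⟨x, hxS, hx⟩ := hy
    rw [Finset.mem_biUnion]
    refine ⟨x, hxS, ?_⟩
    rw [Fintype.mem_piFinset]
    intro i
    rw [Metric.mem_ball, dist_eq_norm] at hx
    have hc : |(a + (j : ℝ) • (WithLp.toLp 2 (fun i => (v i : ℝ) / (N : ℝ)) :
        EuclideanSpace ℝ (Fin n))) i - x i| < 1 / (N : ℝ) := by
      refine lt_of_le_of_lt ?_ hx
      have := EuclideanSpace.norm_eq (a + (j : ℝ) • (WithLp.toLp 2 (fun i => (v i : ℝ) / (N : ℝ)) :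
        EuclideanSpace ℝ (Fin n)) - x)
      have h2 := PiLp.norm_apply_le (a + (j : ℝ) • (WithLp.toLp 2 (fun i => (v i : ℝ) / (N : ℝ)) :
        EuclideanSpace ℝ (Fin n)) - x) i
      simpa using h2
    have hf := floor_near N hN _ _ hc
    have he : (N : ℝ) * (a + (j : ℝ) • (WithLp.toLp 2 (fun i => (v i : ℝ) / (N : ℝ)) :
        EuclideanSpace ℝ (Fin n))) i = (N : ℝ) * a i + ((j * v i : ℤ) : ℝ) := by
      simp
      field_simp
    rw [he, Int.floor_add_intCast] at hf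
    exact hf

end Pool.Agent.Zk72.KakDisc
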